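import Pool.Agent.H2.PDS.Targets

/-!
MP_35c1fe_nt, board pds_modules, row UNI: the perfect difference set from the extension step.
-/

set_option autoImplicit false

namespace Pool.Agent.H89.PDS

open Finset Filter Pool.Agent.H2.PDS Pool.Agent.H88.PD

/-- the invariants of the construction -/
def Inv (p : ℕ × Finset ℕ) : Prop :=
  1 ≤ p.1 ∧ Sid p.2 ∧ (∀ a ∈ p.2, 1 ≤ a ∧ a ≤ p.1 ^ 10) ∧ p.2.card ≤ p.1

open Classical in
/-- one step of the construction -/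
def Stp (C D : ℕ) (p p' : ℕ × Finset ℕ) : Prop :=
  p'.1 = D * p.1 ^ 6 ∧ p.2 ⊆ p'.2 ∧
    (∀ n, 1 ≤ n → n ≤ p.1 ^ 8 → ∃ a ∈ p'.2, ∃ b ∈ p'.2, a = b + n ∧ a ≤ C * n * p.1 ^ 10) ∧
    ((Icc 1 (p.1 ^ 8)).filter
      (fun n => ¬ ∃ a ∈ p'.2, ∃ b ∈ p'.2, a = b + n ∧ a ≤ C * p.1 ^ 10)).card ≤ C * p.1 ^ 6

theorem inv_step {C : ℕ} (hC : ∀ (m : ℕ) (F : Finset ℕ), 1 ≤ m → Sid F →
    (∀ a ∈ F, 1 ≤ a ∧ a ≤ m ^ 10) → F.card ≤ m → ∃ F' : Finset ℕ, F ⊆ F' ∧ Sid F' ∧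
      (∀ a ∈ F', 1 ≤ a ∧ a ≤ C * m ^ 18) ∧ F'.card ≤ C * m ^ 6 ∧ Stp C (C + 2) (m, F)
        ((C + 2) * m ^ 6, F')) (p : {p // Inv p}) :
    ∃ p' : {p // Inv p}, Stp C (C + 2) p.1 p'.1 := by
  obtain ⟨⟨m, F⟩, hm, hS, hF, hc⟩ := p
  obtain ⟨F', h1, h2, h3, h4, h5⟩ := hC m F hm hS hF hc
  refine ⟨⟨((C + 2) * m ^ 6, F'), ?_, h2, ?_, ?_⟩, h5⟩
  · exact Nat.one_le_iff_ne_zero.2 (by
      have : 0 < m ^ 6 := pow_pos hm 6
      positivity)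
  · intro a ha
    refine ⟨(h3 a ha).1, (h3 a ha).2.trans ?_⟩
    show C * m ^ 18 ≤ ((C + 2) * m ^ 6) ^ 10
    calc C * m ^ 18 ≤ (C + 2) ^ 10 * m ^ 60 := by
          refine Nat.mul_le_mul ?_ (Nat.pow_le_pow_right hm (by norm_num))
          calc C ≤ C + 2 := by omega
            _ ≤ (C + 2) ^ 10 := Nat.le_self_pow (by norm_num) _
      _ = ((C + 2) * m ^ 6) ^ 10 := by ring
  · show F'.card ≤ (C + 2) * m ^ 6
    exact h4.trans (Nat.mul_le_mul (by omega) le_rfl)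

theorem pf_UNI (hEXT : T_EXT) : T_UNI := by
  obtain ⟨C, hC⟩ := hEXT
  have hstep := inv_step (C := C) (by
    intro m F hm hS hF hc
    obtain ⟨F', h1, h2, h3, h4, h5, h6⟩ := hC m F hm hS hF hc
    exact ⟨F', h1, h2, h3, h4, rfl, h1, h5, h6⟩)
  choose f hf using hstep
  have hinv0 : Inv (1, ∅) := by
    refine ⟨le_rfl, ?_, ?_, ?_⟩
    · intro a ha
      simp at ha
    · intro a ha
      simp at ha
    · simp
  obtain ⟨s, hs0, hs⟩ : ∃ s : ℕ → {p // Inv p}, (s 0).1 = (1, ∅) ∧ ∀ k, s (k + 1) = f (s k) :=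
    ⟨fun k => Nat.rec ⟨(1, ∅), hinv0⟩ (fun _ p => f p) k, rfl, fun k => rfl⟩
  have hst : ∀ k, Stp C (C + 2) (s k).1 (s (k + 1)).1 := by
    intro k
    rw [hs k]
    exact hf (s k)
  set m : ℕ → ℕ := fun k => (s k).1.1 with hm
  set F : ℕ → Finset ℕ := fun k => (s k).1.2 with hF
  have hm0 : m 0 = 1 := by
    show (s 0).1.1 = 1
    rw [hs0]
  have hms : ∀ k, m (k + 1) = (C + 2) * m k ^ 6 := fun k => (hst k).1
  have hm1 : ∀ k, k + 1 ≤ m k := by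
    intro k
    induction k with
    | zero => rw [hm0]
    | succ k ih =>
      rw [hms k]
      calc k + 1 + 1 ≤ 2 * m k := by omega
        _ ≤ (C + 2) * m k ^ 6 := Nat.mul_le_mul (by omega) (Nat.le_self_pow (by norm_num) _)
  have hmono : Monotone F := monotone_nat_of_le_succ fun k => (hst k).2.1
  have hSid : ∀ k, Sid (F k) := fun k => (s k).2.2.1
  have hpos : ∀ k, ∀ a ∈ F k, 1 ≤ a := fun k a ha => ((s k).2.2.2.1 a ha).1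
  set A : Set ℕ := {a | ∃ k, a ∈ F k} with hA
  have hcommon : ∀ a ∈ A, ∀ b ∈ A, ∀ c ∈ A, ∀ d ∈ A, ∃ k, a ∈ F k ∧ b ∈ F k ∧ c ∈ F k ∧
      d ∈ F k := by
    rintro a ⟨k1, h1⟩ b ⟨k2, h2⟩ c ⟨k3, h3⟩ d ⟨k4, h4⟩
    refine ⟨k1 + k2 + k3 + k4, hmono (by omega) h1, hmono (by omega) h2, hmono (by omega) h3,
      hmono (by omega) h4⟩
  have hPDS : IsPerfectDifferenceSet A := by
    refine ⟨?_, ?_⟩
    · rintro a ⟨k, hk⟩
      exact hpos k a hk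
    · intro n hn
      have h1 : n ≤ m n ^ 8 := by
        calc n ≤ m n := by have := hm1 n; omega
          _ ≤ m n ^ 8 := Nat.le_self_pow (by norm_num) _
      obtain ⟨a, ha, b, hb, hab, _⟩ := (hst n).2.2.1 n hn h1
      refine ⟨(a, b), ⟨⟨n + 1, ha⟩, ⟨n + 1, hb⟩, hab⟩, ?_⟩
      rintro ⟨c, d⟩ ⟨hc, hd, hcd⟩
      simp only at hc hd hcd
      obtain ⟨k, h2, h3, h4, h5⟩ := hcommon a ⟨n + 1, ha⟩ b ⟨n + 1, hb⟩ c hc d hd
      obtain ⟨h6, h7⟩ := hSid k a h2 b h3 c h4 d h5 (by omega) (by omega)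
      rw [h6, h7]
  refine ⟨(C + 2) ^ 8, Nat.one_le_pow _ _ (by omega), A, hPDS, ?_⟩
  intro x hx
  have hex : ∃ k, x ≤ m k ^ 8 := ⟨x, by
    calc x ≤ m x := by have := hm1 x; omega
      _ ≤ m x ^ 8 := Nat.le_self_pow (by norm_num) _⟩
  classical
  have hCle : C ≤ (C + 2) ^ 8 := by
    calc C ≤ C + 2 := by omega
      _ ≤ (C + 2) ^ 8 := Nat.le_self_pow (by norm_num) _
  refine ⟨m (Nat.find hex), ?_, Nat.find_spec hex, ?_, ?_, ?_⟩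
  · have := hm1 (Nat.find hex)
    omega
  · rcases hk : Nat.find hex with _ | l
    · rw [hm0]
      calc 1 ^ 8 = 1 * 1 := by norm_num
        _ ≤ (C + 2) ^ 8 * x ^ 6 :=
          Nat.mul_le_mul (Nat.one_le_pow _ _ (by omega)) (Nat.one_le_pow _ _ (by omega))
    · have h1 : ¬ x ≤ m l ^ 8 := Nat.find_min hex (by omega)
      rw [hms l]
      calc ((C + 2) * m l ^ 6) ^ 8 = (C + 2) ^ 8 * (m l ^ 8) ^ 6 := by ring
        _ ≤ (C + 2) ^ 8 * x ^ 6 :=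
          Nat.mul_le_mul le_rfl (Nat.pow_le_pow_left (by omega) 6)
  · intro n hn hn8
    obtain ⟨a, ha, b, hb, hab, hle⟩ := (hst (Nat.find hex)).2.2.1 n hn hn8
    refine ⟨a, ⟨_, ha⟩, b, ⟨_, hb⟩, hab, hle.trans ?_⟩
    exact Nat.mul_le_mul (Nat.mul_le_mul hCle le_rfl) le_rfl
  · have h1 := (hst (Nat.find hex)).2.2.2
    refine le_trans (Finset.card_le_card ?_) (h1.trans (Nat.mul_le_mul hCle le_rfl))
    intro n hn
    rw [Finset.mem_filter] at hn ⊢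
    refine ⟨hn.1, ?_⟩
    rintro ⟨a, ha, b, hb, hab, hle⟩
    exact hn.2 ⟨a, ⟨_, ha⟩, b, ⟨_, hb⟩, hab, hle.trans (Nat.mul_le_mul hCle le_rfl)⟩

end Pool.Agent.H89.PDS

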